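import Pool.Agent.LE.StmtsQD

/-!
# LQD, row OFF: concentration of `(G^* f G₀)(x, x)`
-/

set_option autoImplicit false

open MeasureTheory ProbabilityTheory Function Filter

open scoped ENNReal BigOperators Topology NNReal ComplexOrder Matrix

noncomputable section

namespace Pool.Agent.LE.QD.H13

open Pool.Agent.Anderson hiding box mem_box card_box
open Pool.Agent.Loc Pool.Agent.Mob Pool.Agent.Helper54.Bal
  Pool.Agent.Helper96.EXP Pool.Agent.BED
open Pool.Agent.LE.MN Pool.Agent.LE.CL Pool.Agent.LE.IR Pool.Agent.LE.QD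

/-- two uses of the Cauchy-Schwarz inequality -/
theorem cs3 {X : Type} [Fintype X] (D a b : X → ℝ) (P Q : ℝ)
    (ha : Real.sqrt (∑ y, a y ^ 4) ≤ P) (hb : Real.sqrt (∑ y, b y ^ 4) ≤ Q) :
    ∑ y, |D y| * (a y * b y) ≤ Real.sqrt (P * Q) * Real.sqrt (∑ y, D y ^ 2) := by
  have h1 : ∑ y, |D y| * (a y * b y) ≤
      Real.sqrt (∑ y, |D y| ^ 2) * Real.sqrt (∑ y, (a y * b y) ^ 2) :=
    Real.sum_mul_le_sqrt_mul_sqrt _ _ _
  have h2 : ∑ y, (a y * b y) ^ 2 ≤
      Real.sqrt (∑ y, (a y ^ 2) ^ 2) * Real.sqrt (∑ y, (b y ^ 2) ^ 2) := by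
    have := Real.sum_mul_le_sqrt_mul_sqrt Finset.univ (fun y => a y ^ 2) (fun y => b y ^ 2)
    simpa [mul_pow] using this
  have e1 : ∑ y, (a y ^ 2) ^ 2 = ∑ y, a y ^ 4 := by
    refine Finset.sum_congr rfl fun y _ => ?_
    ring
  have e2 : ∑ y, (b y ^ 2) ^ 2 = ∑ y, b y ^ 4 := by
    refine Finset.sum_congr rfl fun y _ => ?_
    ring
  rw [e1, e2] at h2
  have hP : 0 ≤ P := (Real.sqrt_nonneg _).trans ha
  have h3 : Real.sqrt (∑ y, a y ^ 4) * Real.sqrt (∑ y, b y ^ 4) ≤ P * Q :=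
    mul_le_mul ha hb (Real.sqrt_nonneg _) hP
  have h4 : Real.sqrt (∑ y, (a y * b y) ^ 2) ≤ Real.sqrt (P * Q) :=
    Real.sqrt_le_sqrt (h2.trans h3)
  have e3 : ∑ y, |D y| ^ 2 = ∑ y, D y ^ 2 := by
    refine Finset.sum_congr rfl fun y _ => ?_
    rw [sq_abs]
  rw [e3] at h1
  calc ∑ y, |D y| * (a y * b y) ≤
      Real.sqrt (∑ y, D y ^ 2) * Real.sqrt (∑ y, (a y * b y) ^ 2) := h1
    _ ≤ Real.sqrt (∑ y, D y ^ 2) * Real.sqrt (P * Q) :=
        mul_le_mul_of_nonneg_left h4 (Real.sqrt_nonneg _)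
    _ = Real.sqrt (P * Q) * Real.sqrt (∑ y, D y ^ 2) := by ring

/-- row OFF -/
theorem off (hral : RalStmt) (hres : ResStmt) (hlcc : LccStmt) : OffStmt := by
  intro d M _ v E η η₁ A B p r Φ K₀ ζ f hη hη₁ hA hB hΦ hK₀ hζ hf hkk hSob hpm hFB hp hr
  obtain ⟨z, hz⟩ : ∃ z : ℂ, z = ⟨E, η⟩ := ⟨_, rfl⟩
  have hzim : z.im = η := by rw [hz]
  have hz0 : 0 < z.im := by rw [hzim]; exact hη
  have hζ0 : 0 < ζ.im := lt_of_lt_of_le hη hζ
  rw [← hz]
  have hη₁0 : 0 < η₁ := lt_of_lt_of_le hη hη₁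
  obtain ⟨ℓ, hℓ⟩ : ∃ ℓ : ℝ, ℓ = Real.sqrt (10 * A * B * (η₁ / η) ^ 2 *
    (8 * A * (η₁ / η ^ 2) * (Φ ^ 2 * K₀))) := ⟨_, rfl⟩
  have hℓ0 : 0 < ℓ := by rw [hℓ]; positivity
  have hℓ2 : 80 * A ^ 2 * B * (η₁ ^ 3 / η ^ 4) * Φ ^ 2 * K₀ = ℓ ^ 2 := by
    rw [hℓ, Real.sq_sqrt (by positivity)]
    field_simp
    ring
  rw [hℓ2]
  obtain ⟨S, hS⟩ : ∃ S : Set (Tor d M → ℝ), S = {V | FBq E η₁ (1 / 4) V} := ⟨_, rfl⟩
  have hSc : gau d M v Sᶜ ≤ ENNReal.ofReal p := by
    have : Sᶜ = {V : Tor d M → ℝ | ¬ FBq E η₁ (1 / 4) V} := by rw [hS]; rfl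
    rw [this]; exact hFB
  -- the free resolvent
  have hG0 : ∀ x : Tor d M, ∑ a, ‖rs (0 : Tor d M → ℝ) ζ a x‖ ^ 2 ≤ K₀ := by
    intro x
    have h1 : ∀ a, ‖rs (0 : Tor d M → ℝ) ζ a x‖ ^ 2 = kk ζ (a - x) := by
      intro a
      have h2 := (hral d M 0 ζ hζ0).2.2.2.2.2.2.1 x 0 (a - x)
      have h3 : tr x (0 : Tor d M → ℝ) = 0 := rfl
      rw [h3, add_zero, add_sub_cancel] at h2
      unfold kk
      rw [h2, (hral d M 0 ζ hζ0).2.1 a x]
    rw [Finset.sum_congr rfl fun a _ => h1 a]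
    have h2 : ∑ a, kk ζ (a - x) = ∑ a, kk ζ a := Equiv.sum_comp (Equiv.subRight x) (kk ζ)
    rw [h2]
    exact hkk
  -- Lipschitz bound
  have hLip : ∀ (x : Tor d M), ∀ V ∈ S, ∀ V' ∈ S, ‖od V z ζ f x - od V' z ζ f x‖ ≤
      ℓ * Real.sqrt (∑ i, (V i - V' i) ^ 2) := by
    intro x V hV V' hV'
    rw [hS] at hV hV'
    have r1 := (hres d M V' E η η₁ A B hη hη₁ hA.le hSob hpm hV').2.2.1 x
    have r2 := (hres d M V E η η₁ A B hη hη₁ hA.le hSob hpm hV).2.2.2.2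
      (fun a => (f a : ℂ) * rs (0 : Tor d M → ℝ) ζ a x)
    rw [← hz] at r1 r2
    have hn2 : n2 (fun a => (f a : ℂ) * rs (0 : Tor d M → ℝ) ζ a x) ≤ Φ ^ 2 * K₀ := by
      unfold n2
      calc ∑ a, ‖(f a : ℂ) * rs (0 : Tor d M → ℝ) ζ a x‖ ^ 2
          ≤ ∑ a, Φ ^ 2 * ‖rs (0 : Tor d M → ℝ) ζ a x‖ ^ 2 := by
            refine Finset.sum_le_sum fun a _ => ?_
            rw [norm_mul, mul_pow, Complex.norm_real, Real.norm_eq_abs]
            exact mul_le_mul_of_nonneg_right (pow_le_pow_left₀ (abs_nonneg _) (hf a) 2)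
              (by positivity)
        _ = Φ ^ 2 * ∑ a, ‖rs (0 : Tor d M → ℝ) ζ a x‖ ^ 2 := by rw [Finset.mul_sum]
        _ ≤ Φ ^ 2 * K₀ := mul_le_mul_of_nonneg_left (hG0 x) (by positivity)
    have r3 := r2.trans (mul_le_mul_of_nonneg_left hn2
      (show 0 ≤ 8 * A * (η₁ / η ^ 2) by positivity))
    unfold n4 at r3
    obtain ⟨-, -, -, -, -, hid, -⟩ := hral d M V z hz0
    have hsym := (hral d M V' z hz0).2.1
    have h1 : od V z ζ f x - od V' z ζ f x =
        -∑ y, ((V y - V' y : ℝ) : ℂ) * ((starRingEnd ℂ) (rs V' z y x) *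
          ((rs V z)ᴴ *ᵥ fun a => (f a : ℂ) * rs (0 : Tor d M → ℝ) ζ a x) y) := by
      unfold od
      rw [← Finset.sum_sub_distrib]
      have h2 : ∀ a, (starRingEnd ℂ) (rs V z a x) * ((f a : ℂ) * rs (0 : Tor d M → ℝ) ζ a x) -
          (starRingEnd ℂ) (rs V' z a x) * ((f a : ℂ) * rs (0 : Tor d M → ℝ) ζ a x) =
          -∑ y, ((V y - V' y : ℝ) : ℂ) * ((starRingEnd ℂ) (rs V' z y x) *
            ((starRingEnd ℂ) (rs V z a y) * ((f a : ℂ) * rs (0 : Tor d M → ℝ) ζ a x))) := by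
        intro a
        have h3 := congrFun (congrFun (hid V') a) x
        rw [Matrix.sub_apply, Matrix.neg_apply, Matrix.mul_assoc, Matrix.mul_apply] at h3
        rw [← sub_mul, ← map_sub, h3, map_neg, map_sum, neg_mul, Finset.sum_mul]
        congr 1
        refine Finset.sum_congr rfl fun y _ => ?_
        rw [Matrix.diagonal_mul, map_mul, map_mul, Complex.conj_ofReal]
        ring
      rw [Finset.sum_congr rfl fun a _ => h2 a, Finset.sum_neg_distrib, Finset.sum_comm]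
      congr 1
      refine Finset.sum_congr rfl fun y _ => ?_
      rw [← Finset.mul_sum, ← Finset.mul_sum]
      rfl
    rw [h1, norm_neg]
    refine (norm_sum_le _ _).trans ?_
    rw [hℓ]
    refine le_trans (le_of_eq ?_) (cs3 (fun y => V y - V' y) (fun y => ‖rs V' z x y‖)
      (fun y => ‖((rs V z)ᴴ *ᵥ fun a => (f a : ℂ) * rs (0 : Tor d M → ℝ) ζ a x) y‖) _ _ r1 r3)
    refine Finset.sum_congr rfl fun y _ => ?_
    rw [norm_mul, norm_mul, Complex.norm_real, Real.norm_eq_abs, Complex.norm_conj, hsym y x]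
  -- continuity and bounds
  have hcont : ∀ x : Tor d M, Continuous fun V : Tor d M → ℝ => od V z ζ f x := by
    intro x
    unfold od
    refine continuous_finsetSum _ fun a _ => ?_
    exact (Complex.continuous_conj.comp
      ((hral d M 0 z hz0).2.2.2.2.2.2.2.2.2.1 a x)).mul continuous_const
  have hrow : ∀ (V : Tor d M → ℝ) (w : ℂ), η ≤ w.im → ∀ x : Tor d M,
      Real.sqrt (∑ a, ‖rs V w a x‖ ^ 2) ≤ 1 / η := by
    intro V w hw x
    have hw0 : 0 < w.im := lt_of_lt_of_le hη hw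
    have h1 := (hral d M V w hw0).2.2.2.2.1 x
    have h2 := (hral d M V w hw0).2.2.2.2.2.2.2.2.2.2.2 x x
    have h3 : ∑ a, ‖rs V w a x‖ ^ 2 = ∑ y, ‖rs V w x y‖ ^ 2 :=
      Finset.sum_congr rfl fun a _ => by rw [(hral d M V w hw0).2.1 a x]
    rw [h3, h1]
    have h4 : (rs V w x x).im ≤ 1 / w.im :=
      ((le_abs_self _).trans (Complex.abs_im_le_norm _)).trans h2
    have h5 : (rs V w x x).im / w.im ≤ (1 / η) ^ 2 := by
      calc (rs V w x x).im / w.im ≤ (1 / w.im) / w.im :=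
            div_le_div_of_nonneg_right h4 hw0.le
        _ = (1 / w.im) ^ 2 := by field_simp
        _ ≤ (1 / η) ^ 2 := pow_le_pow_left₀ (by positivity)
            (one_div_le_one_div_of_le hη hw) 2
    calc Real.sqrt ((rs V w x x).im / w.im) ≤ Real.sqrt ((1 / η) ^ 2) := Real.sqrt_le_sqrt h5
      _ = 1 / η := Real.sqrt_sq (by positivity)
  have hbd : ∀ (V : Tor d M → ℝ) (x : Tor d M), ‖od V z ζ f x‖ ≤ Φ / η ^ 2 := by
    intro V x
    unfold od
    refine (norm_sum_le _ _).trans ?_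
    calc ∑ a, ‖(starRingEnd ℂ) (rs V z a x) * ((f a : ℂ) * rs (0 : Tor d M → ℝ) ζ a x)‖
        ≤ ∑ a, Φ * (‖rs V z a x‖ * ‖rs (0 : Tor d M → ℝ) ζ a x‖) := by
          refine Finset.sum_le_sum fun a _ => ?_
          rw [norm_mul, norm_mul, Complex.norm_conj, Complex.norm_real, Real.norm_eq_abs]
          calc ‖rs V z a x‖ * (|f a| * ‖rs (0 : Tor d M → ℝ) ζ a x‖) =
              |f a| * (‖rs V z a x‖ * ‖rs (0 : Tor d M → ℝ) ζ a x‖) := by ring
            _ ≤ _ := mul_le_mul_of_nonneg_right (hf a) (by positivity)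
      _ = Φ * ∑ a, ‖rs V z a x‖ * ‖rs (0 : Tor d M → ℝ) ζ a x‖ := by rw [Finset.mul_sum]
      _ ≤ Φ * (Real.sqrt (∑ a, ‖rs V z a x‖ ^ 2) *
          Real.sqrt (∑ a, ‖rs (0 : Tor d M → ℝ) ζ a x‖ ^ 2)) :=
          mul_le_mul_of_nonneg_left (Real.sum_mul_le_sqrt_mul_sqrt _ _ _) hΦ.le
      _ ≤ Φ * (1 / η * (1 / η)) := by
          refine mul_le_mul_of_nonneg_left ?_ hΦ.le
          exact mul_le_mul (hrow V z (by rw [hzim]) x) (hrow 0 ζ hζ x) (Real.sqrt_nonneg _)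
            (by positivity)
      _ = Φ / η ^ 2 := by
          field_simp
  have : IsProbabilityMeasure (gau d M v) := by unfold gau; infer_instance
  have hint : ∀ x : Tor d M, Integrable (fun V : Tor d M → ℝ => od V z ζ f x) (gau d M v) := by
    intro x
    refine (integrable_const (Φ / η ^ 2)).mono' (hcont x).aestronglyMeasurable ?_
    exact Eventually.of_forall fun V => hbd V x
  -- the two families of events
  have hRe : ∀ x : Tor d M, gau d M v {V | V ∈ S ∧ r + 2 * (Φ / η ^ 2) * p <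
      |(od V z ζ f x).re - (∫ W, od W z ζ f x ∂(gau d M v)).re|} ≤
        ENNReal.ofReal (2 * Real.exp (-(r ^ 2 / (5 * ℓ ^ 2 * v)))) := by
    intro x
    have h := hlcc (Tor d M) v S (fun V => (od V z ζ f x).re) (Φ / η ^ 2) ℓ p r
      (Complex.continuous_re.comp (hcont x)).measurable
      (fun V => (Complex.abs_re_le_norm _).trans (hbd V x)) hℓ0
      (fun V hV V' hV' => by
        have := hLip x V hV V' hV'
        rw [← Complex.sub_re]
        exact (Complex.abs_re_le_norm _).trans this) hSc hp hr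
    have e : ∫ W, (od W z ζ f x).re ∂(gau d M v) = (∫ W, od W z ζ f x ∂(gau d M v)).re :=
      integral_re (hint x)
    have e' : (∫ W, (od W z ζ f x).re ∂(Measure.pi fun _ : Tor d M => gaussianReal 0 v)) =
        (∫ W, od W z ζ f x ∂(gau d M v)).re := e
    rw [e'] at h
    exact h
  have hIm : ∀ x : Tor d M, gau d M v {V | V ∈ S ∧ r + 2 * (Φ / η ^ 2) * p <
      |(od V z ζ f x).im - (∫ W, od W z ζ f x ∂(gau d M v)).im|} ≤
        ENNReal.ofReal (2 * Real.exp (-(r ^ 2 / (5 * ℓ ^ 2 * v)))) := by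
    intro x
    have h := hlcc (Tor d M) v S (fun V => (od V z ζ f x).im) (Φ / η ^ 2) ℓ p r
      (Complex.continuous_im.comp (hcont x)).measurable
      (fun V => (Complex.abs_im_le_norm _).trans (hbd V x)) hℓ0
      (fun V hV V' hV' => by
        have := hLip x V hV V' hV'
        rw [← Complex.sub_im]
        exact (Complex.abs_im_le_norm _).trans this) hSc hp hr
    have e : ∫ W, (od W z ζ f x).im ∂(gau d M v) = (∫ W, od W z ζ f x ∂(gau d M v)).im :=
      integral_im (hint x)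
    have e' : (∫ W, (od W z ζ f x).im ∂(Measure.pi fun _ : Tor d M => gaussianReal 0 v)) =
        (∫ W, od W z ζ f x ∂(gau d M v)).im := e
    rw [e'] at h
    exact h
  -- union bound
  have hsub : {V : Tor d M → ℝ | ¬ ∀ x, ‖od V z ζ f x - ∫ W, od W z ζ f x ∂(gau d M v)‖ ≤
        2 * r + 4 * p * Φ / η ^ 2} ⊆
      Sᶜ ∪ ⋃ x : Tor d M, ({V | V ∈ S ∧ r + 2 * (Φ / η ^ 2) * p <
        |(od V z ζ f x).re - (∫ W, od W z ζ f x ∂(gau d M v)).re|} ∪
        {V | V ∈ S ∧ r + 2 * (Φ / η ^ 2) * p <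
        |(od V z ζ f x).im - (∫ W, od W z ζ f x ∂(gau d M v)).im|}) := by
    intro V hV
    by_cases hVS : V ∈ S
    · right
      have hV' : ∃ x, ¬ ‖od V z ζ f x - ∫ W, od W z ζ f x ∂(gau d M v)‖ ≤
          2 * r + 4 * p * Φ / η ^ 2 := not_forall.1 hV
      obtain ⟨x, hx⟩ := hV'
      rw [Set.mem_iUnion]
      refine ⟨x, ?_⟩
      by_contra hcon
      rw [Set.mem_union, not_or] at hcon
      have c1 : |(od V z ζ f x).re - (∫ W, od W z ζ f x ∂(gau d M v)).re| ≤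
          r + 2 * (Φ / η ^ 2) * p := by
        by_contra h
        exact hcon.1 ⟨hVS, not_le.1 h⟩
      have c2 : |(od V z ζ f x).im - (∫ W, od W z ζ f x ∂(gau d M v)).im| ≤
          r + 2 * (Φ / η ^ 2) * p := by
        by_contra h
        exact hcon.2 ⟨hVS, not_le.1 h⟩
      apply hx
      refine (Complex.norm_le_abs_re_add_abs_im _).trans ?_
      rw [Complex.sub_re, Complex.sub_im]
      refine (add_le_add c1 c2).trans (le_of_eq ?_)
      ring
    · left; exact hVS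
  have hex : 0 ≤ Real.exp (-(r ^ 2 / (5 * ℓ ^ 2 * v))) := (Real.exp_pos _).le
  have hcard : (Finset.univ : Finset (Tor d M)).card = M ^ d := by
    rw [Finset.card_univ, Fintype.card_fun, ZMod.card, Fintype.card_fin]
  calc gau d M v {V : Tor d M → ℝ | ¬ ∀ x, ‖od V z ζ f x - ∫ W, od W z ζ f x ∂(gau d M v)‖ ≤
        2 * r + 4 * p * Φ / η ^ 2}
      ≤ gau d M v (Sᶜ ∪ ⋃ x : Tor d M, ({V | V ∈ S ∧ r + 2 * (Φ / η ^ 2) * p <
        |(od V z ζ f x).re - (∫ W, od W z ζ f x ∂(gau d M v)).re|} ∪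
        {V | V ∈ S ∧ r + 2 * (Φ / η ^ 2) * p <
        |(od V z ζ f x).im - (∫ W, od W z ζ f x ∂(gau d M v)).im|})) := measure_mono hsub
    _ ≤ gau d M v Sᶜ + ∑ x : Tor d M, (gau d M v {V | V ∈ S ∧ r + 2 * (Φ / η ^ 2) * p <
        |(od V z ζ f x).re - (∫ W, od W z ζ f x ∂(gau d M v)).re|} +
        gau d M v {V | V ∈ S ∧ r + 2 * (Φ / η ^ 2) * p <
        |(od V z ζ f x).im - (∫ W, od W z ζ f x ∂(gau d M v)).im|}) := by
        refine (measure_union_le _ _).trans ?_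
        gcongr
        refine (measure_iUnion_fintype_le _ _).trans ?_
        exact Finset.sum_le_sum fun x _ => measure_union_le _ _
    _ ≤ ENNReal.ofReal p + ∑ _x : Tor d M, (ENNReal.ofReal (2 * Real.exp (-(r ^ 2 /
        (5 * ℓ ^ 2 * v)))) + ENNReal.ofReal (2 * Real.exp (-(r ^ 2 / (5 * ℓ ^ 2 * v))))) :=
        add_le_add hSc (Finset.sum_le_sum fun x _ => add_le_add (hRe x) (hIm x))
    _ = ENNReal.ofReal (p + (M : ℝ) ^ d * (4 * Real.exp (-(r ^ 2 / (5 * ℓ ^ 2 * v))))) := by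
        rw [Finset.sum_const, hcard, ← ENNReal.ofReal_add (by positivity) (by positivity),
          nsmul_eq_mul, ENNReal.ofReal_add hp (by positivity),
          ENNReal.ofReal_mul (p := (M : ℝ) ^ d) (by positivity)]
        congr 2
        · rw [← Nat.cast_pow, ENNReal.ofReal_natCast]
        · congr 1
          ring

end Pool.Agent.LE.QD.H13
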